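import Pool.Agent.W153.EO.Host

set_option autoImplicit false

namespace Pool.Agent.W153.EO

open Filter Topology

/-- Transport of a host to `Fin n`. -/
lemma transport {V : Type} [Fintype V] (G : SimpleGraph V) (g : Sym2 V → ℕ) (hg : Set.InjOn g G.edgeSet)
    (hC : ¬ Cont G g) : ∃ G' : SimpleGraph (Fin (Fintype.card V)), ∃ g' : Sym2 (Fin (Fintype.card V)) → ℕ,
      Set.InjOn g' G'.edgeSet ∧ ¬ Cont G' g' ∧ G'.edgeSet.ncard = G.edgeSet.ncard := by
  classical
  let e := Fintype.equivFin V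
  refine ⟨G.comap e.symm, fun x => g (x.map e.symm), ?_, ?_, ?_⟩
  · intro x hx y hy h
    have hx' : x.map e.symm ∈ G.edgeSet := by
      induction x using Sym2.ind with
      | _ a b => exact hx
    have hy' : y.map e.symm ∈ G.edgeSet := by
      induction y using Sym2.ind with
      | _ a b => exact hy
    exact Sym2.map.injective e.symm.injective (hg hx' hy' h)
  · rintro ⟨φ, h1, h2, h3⟩
    apply hC
    refine ⟨e.symm ∘ φ, e.symm.injective.comp h1, fun u v huv => h2 u v huv, ?_⟩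
    intro e₁ he₁ e₂ he₂ hlt
    have := h3 e₁ he₁ e₂ he₂ hlt
    simpa only [Sym2.map_map] using this
  · have himg : G.edgeSet = Sym2.map e.symm '' (G.comap e.symm).edgeSet := by
      ext x
      constructor
      · intro hx
        refine ⟨x.map e, ?_, ?_⟩
        · induction x using Sym2.ind with
          | _ a b =>
            simp only [Sym2.map_mk, SimpleGraph.mem_edgeSet, SimpleGraph.comap_adj, Equiv.symm_apply_apply]
            exact hx
        · rw [Sym2.map_map]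
          simp
      · rintro ⟨y, hy, rfl⟩
        induction y using Sym2.ind with
        | _ a b => exact hy
    rw [himg, Set.ncard_image_of_injective _ (Sym2.map.injective e.symm.injective)]

lemma pow_ratio (b : ℕ) (hb : 1 ≤ b) : ((b : ℝ) + 1) ^ b ≤ 3 * (b : ℝ) ^ b := by
  have hb' : (0 : ℝ) < b := by exact_mod_cast hb
  have h1 : ((b : ℝ) + 1) = b * (1 + 1 / b) := by
    field_simp
  have h2 : (1 + 1 / (b : ℝ)) ^ b ≤ 3 := by
    have h3 : 1 + 1 / (b : ℝ) ≤ Real.exp (1 / b) := by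
      have := Real.add_one_le_exp (1 / (b : ℝ))
      linarith
    calc (1 + 1 / (b : ℝ)) ^ b ≤ (Real.exp (1 / b)) ^ b := pow_le_pow_left₀ (by positivity) h3 b
      _ = Real.exp 1 := by
          rw [← Real.exp_nat_mul]
          congr 1
          field_simp
      _ ≤ 3 := by
          have := Real.exp_one_lt_d9
          linarith
  rw [h1, mul_pow]
  calc (b : ℝ) ^ b * (1 + 1 / b) ^ b ≤ (b : ℝ) ^ b * 3 := mul_le_mul_of_nonneg_left h2 (by positivity)
    _ = 3 * (b : ℝ) ^ b := by ring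

lemma log_nat_le (b : ℕ) (hb : 1 ≤ b) : Real.log b ≤ b := by
  have hb' : (0 : ℝ) < b := by exact_mod_cast hb
  have := Real.log_le_sub_one_of_pos hb'
  linarith

/-- The numerical estimate. -/
lemma estimate (C : ℝ) (b : ℕ) (hb : 1 ≤ b) (hlarge : 20 * |C| * (b : ℝ) ^ 2 < 2 ^ b) (n : ℕ)
    (hn : n = 2 ^ b * (b * 2 ^ b + 2 ^ b) ^ b + (2 * (b * 2 ^ b)) ^ b) :
    C * (n : ℝ) * Real.log (n : ℝ) < (((2 * (b * 2 ^ b)) ^ b * 2 ^ b : ℕ) : ℝ) := by
  have hb' : (0 : ℝ) < b := by exact_mod_cast hb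
  have hb1 : (1 : ℝ) ≤ b := by exact_mod_cast hb
  set X : ℝ := ((b : ℝ) * 2 ^ b) ^ b with hX
  have hXpos : 0 < X := by positivity
  have h2b : (1 : ℝ) ≤ 2 ^ b := one_le_pow₀ (by norm_num)
  have hnX : (n : ℝ) ≤ 4 * 2 ^ b * X := by
    rw [hn]
    push_cast
    have e1 : ((b : ℝ) * 2 ^ b + 2 ^ b) ^ b = (2 ^ b) ^ b * ((b : ℝ) + 1) ^ b := by
      rw [← mul_pow]
      congr 1
      ring
    have e2 : (2 * ((b : ℝ) * 2 ^ b)) ^ b = 2 ^ b * X := by
      rw [mul_pow, hX]
    rw [e1, e2]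
    have e3 : (2 ^ b) ^ b * ((b : ℝ) + 1) ^ b ≤ 3 * X := by
      calc ((2 : ℝ) ^ b) ^ b * ((b : ℝ) + 1) ^ b ≤ (2 ^ b) ^ b * (3 * (b : ℝ) ^ b) :=
            mul_le_mul_of_nonneg_left (pow_ratio b hb) (by positivity)
        _ = 3 * X := by
            rw [hX, mul_pow]
            ring
    calc (2 : ℝ) ^ b * ((2 ^ b) ^ b * ((b : ℝ) + 1) ^ b) + 2 ^ b * X
        ≤ 2 ^ b * (3 * X) + 2 ^ b * X := by
          have := mul_le_mul_of_nonneg_left e3 (by positivity : (0 : ℝ) ≤ 2 ^ b)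
          linarith
      _ = 4 * 2 ^ b * X := by ring
  have hnpos : 0 < n := by
    rw [hn]
    have : 0 < (2 * (b * 2 ^ b)) ^ b := by positivity
    omega
  have hn1 : (1 : ℝ) ≤ n := by exact_mod_cast hnpos
  have hlog0 : 0 ≤ Real.log n := Real.log_nonneg hn1
  have hlog2 : Real.log 2 ≤ 1 := by
    have := Real.log_two_lt_d9
    linarith
  have hlog2' : 0 ≤ Real.log 2 := Real.log_nonneg (by norm_num)
  have hlog : Real.log n ≤ 5 * (b : ℝ) ^ 2 := by
    calc Real.log n ≤ Real.log (4 * 2 ^ b * X) := Real.log_le_log (by linarith) hnX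
      _ = 2 * Real.log 2 + b * Real.log 2 + b * (Real.log b + b * Real.log 2) := by
          rw [Real.log_mul (by positivity) (by positivity), Real.log_mul (by positivity) (by positivity),
            Real.log_pow, hX, Real.log_pow, Real.log_mul (by positivity) (by positivity), Real.log_pow,
            show (4 : ℝ) = 2 ^ 2 by norm_num, Real.log_pow]
          push_cast
          ring
      _ ≤ 2 * 1 + b * 1 + b * (b + b * 1) := by
          have h1 := log_nat_le b hb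
          have h2 : (b : ℝ) * Real.log 2 ≤ b * 1 := mul_le_mul_of_nonneg_left hlog2 hb'.le
          have h3 : (b : ℝ) * (Real.log b + b * Real.log 2) ≤ b * (b + b * 1) :=
            mul_le_mul_of_nonneg_left (by linarith) hb'.le
          linarith
      _ ≤ 5 * (b : ℝ) ^ 2 := by nlinarith
  have hE : (((2 * (b * 2 ^ b)) ^ b * 2 ^ b : ℕ) : ℝ) = 2 ^ b * (2 ^ b * X) := by
    push_cast
    rw [mul_pow, hX]
    ring
  rw [hE]
  calc C * (n : ℝ) * Real.log n ≤ |C| * n * Real.log n := by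
        apply mul_le_mul_of_nonneg_right _ hlog0
        exact mul_le_mul_of_nonneg_right (le_abs_self C) (by positivity)
    _ ≤ |C| * (4 * 2 ^ b * X) * (5 * (b : ℝ) ^ 2) := by
        apply mul_le_mul _ hlog hlog0 (by positivity)
        exact mul_le_mul_of_nonneg_left hnX (abs_nonneg C)
    _ = (20 * |C| * (b : ℝ) ^ 2) * (2 ^ b * X) := by ring
    _ < 2 ^ b * (2 ^ b * X) := by
        apply mul_lt_mul_of_pos_right hlarge (by positivity)

lemma exists_b (C : ℝ) (N : ℕ) : ∃ b : ℕ, 1 ≤ b ∧ N ≤ b ∧ 20 * |C| * (b : ℝ) ^ 2 < 2 ^ b := by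
  have h1 : Tendsto (fun b : ℕ => (b : ℝ) ^ 2 / 2 ^ b) atTop (𝓝 0) :=
    tendsto_pow_const_div_const_pow_of_one_lt 2 (by norm_num)
  have h2 := h1.const_mul (20 * |C|)
  rw [mul_zero] at h2
  have h3 : ∀ᶠ b : ℕ in atTop, 20 * |C| * ((b : ℝ) ^ 2 / 2 ^ b) < 1 := h2.eventually_lt_const (by norm_num)
  obtain ⟨b, hb⟩ := (h3.and ((eventually_ge_atTop 1).and (eventually_ge_atTop N))).exists
  refine ⟨b, hb.2.1, hb.2.2, ?_⟩
  have h4 := hb.1
  rw [← mul_div_assoc, div_lt_one (by positivity)] at h4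
  exact h4

/-- The lower bound. -/
theorem lower (C : ℝ) (N : ℕ) : ∃ n : ℕ, N ≤ n ∧ ∃ G : SimpleGraph (Fin n), ∃ g : Sym2 (Fin n) → ℕ,
    Set.InjOn g G.edgeSet ∧ ¬ Cont G g ∧ C * (n : ℝ) * Real.log (n : ℝ) < (G.edgeSet.ncard : ℝ) := by
  obtain ⟨b, hb1, hbN, hb⟩ := exists_b C N
  obtain ⟨G, g, hg, hC, hcard⟩ := transport (host b (2 ^ b) (b * 2 ^ b)) (ord b (2 ^ b) (b * 2 ^ b))
    (ord_injOn _ _ _) (host_avoids _ _ _)
  have hn := host_card b (2 ^ b) (b * 2 ^ b)
  refine ⟨_, ?_, G, g, hg, hC, ?_⟩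
  · rw [hn]
    have h1 : b < 2 ^ b := Nat.lt_two_pow_self
    have h2 : 2 ^ b ≤ (2 * (b * 2 ^ b)) ^ b := by
      apply Nat.pow_le_pow_left
      have : 1 ≤ b * 2 ^ b := Nat.one_le_iff_ne_zero.mpr (by positivity)
      omega
    omega
  · refine lt_of_lt_of_le (estimate C b hb1 hb _ hn) ?_
    rw [hcard]
    exact_mod_cast host_edges b (2 ^ b) (b * 2 ^ b)

end Pool.Agent.W153.EO
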