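import Pool.Agent.W153.EO.Pattern

set_option autoImplicit false

/-!
# Every edge-ordering of a large complete bipartite graph contains separated rows or columns
-/

namespace Pool.Agent.W153.EO

open Finset

/-- `k` rows whose edges to `t` common columns come in `k` consecutive blocks, or the same with rows and columns
exchanged. -/
theorem sep (t : ℕ) : ∀ s k l : ℕ, k + l = s → ∃ M R : ℕ, ∀ (A B : Type) [DecidableEq A] [DecidableEq B]
    [Nonempty A] [Nonempty B] (h : A → B → ℕ) (SA : Finset A) (SB : Finset B),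
    (∀ a ∈ SA, ∀ b ∈ SB, ∀ a' ∈ SA, ∀ b' ∈ SB, h a b = h a' b' → a = a' ∧ b = b') →
    R ≤ SA.card → M ≤ SB.card →
    (∃ (r : ℕ → A) (J : Finset B), J ⊆ SB ∧ J.card = t ∧ (∀ i < k, r i ∈ SA) ∧
      ∀ i j, i < j → j < k → ∀ x ∈ J, ∀ y ∈ J, h (r i) x < h (r j) y) ∨
    (∃ (c : ℕ → B) (J : Finset A), J ⊆ SA ∧ J.card = t ∧ (∀ i < l, c i ∈ SB) ∧
      ∀ i j, i < j → j < l → ∀ x ∈ J, ∀ y ∈ J, h x (c i) < h y (c j)) := by
  intro s
  induction s with
  | zero =>
    intro k l hkl
    have hk : k = 0 := by omega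
    subst hk
    refine ⟨t, 0, ?_⟩
    intro A B _ _ _ _ h SA SB _ _ hB
    left
    obtain ⟨J, hJ, hJc⟩ := exists_subset_card_eq hB
    exact ⟨fun _ => Classical.arbitrary A, J, hJ, hJc, fun i hi => absurd hi (Nat.not_lt_zero i),
      fun i j _ hj => absurd hj (Nat.not_lt_zero j)⟩
  | succ s ih =>
    intro k l hkl
    rcases k with _ | k
    · refine ⟨t, 0, ?_⟩
      intro A B _ _ _ _ h SA SB _ _ hB
      left
      obtain ⟨J, hJ, hJc⟩ := exists_subset_card_eq hB
      exact ⟨fun _ => Classical.arbitrary A, J, hJ, hJc, fun i hi => absurd hi (Nat.not_lt_zero i),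
        fun i j _ hj => absurd hj (Nat.not_lt_zero j)⟩
    rcases l with _ | l
    · refine ⟨0, t, ?_⟩
      intro A B _ _ _ _ h SA SB _ hA _
      right
      obtain ⟨J, hJ, hJc⟩ := exists_subset_card_eq hA
      exact ⟨fun _ => Classical.arbitrary B, J, hJ, hJc, fun i hi => absurd hi (Nat.not_lt_zero i),
        fun i j _ hj => absurd hj (Nat.not_lt_zero j)⟩
    obtain ⟨M1, R1, h1⟩ := ih k (l + 1) (by omega)
    obtain ⟨M2, R2, h2⟩ := ih (k + 1) l (by omega)
    set m0 := M1 + M2 + 1 with hm0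
    refine ⟨2 * m0, 2 ^ (2 * m0) * (R1 + R2 + 1) + 1, ?_⟩
    intro A B _ _ _ _ h SA SB hinj hA hB
    obtain ⟨B0, hB0, hB0c⟩ := exists_subset_card_eq hB
    -- the threshold
    have hex : ∃ θ : ℕ, ∃ a ∈ SA, m0 ≤ (B0.filter (fun b => h a b ≤ θ)).card := by
      have hne : SA.Nonempty := by
        rw [← card_pos]
        omega
      obtain ⟨a, ha⟩ := hne
      refine ⟨B0.sup (h a), a, ha, ?_⟩
      rw [filter_true_of_mem]
      · omega
      · intro b hb
        exact le_sup (f := h a) hb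
    classical
    set θ := Nat.find hex with hθ
    obtain ⟨a1, ha1, hcard1⟩ := Nat.find_spec hex
    rw [← hθ] at hcard1
    have hlow : ∀ a ∈ SA, (B0.filter (fun b => h a b < θ)).card < m0 := by
      intro a ha
      by_contra hcon
      push Not at hcon
      rcases Nat.eq_zero_or_pos θ with h0 | hpos
      · rw [h0] at hcon
        simp only [Nat.not_lt_zero, filter_false, card_empty] at hcon
        omega
      · apply Nat.find_min hex (m := θ - 1) (by omega)
        refine ⟨a, ha, hcon.trans (card_le_card ?_)⟩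
        intro b hb
        rw [mem_filter] at hb ⊢
        exact ⟨hb.1, by omega⟩
    -- pigeonhole
    obtain ⟨L, hL, hA2⟩ := exists_le_card_fiber_of_mul_le_card_of_maps_to (s := SA.erase a1)
      (t := B0.powerset) (f := fun a => B0.filter (fun b => h a b < θ)) (n := R1 + R2 + 1)
      (fun a _ => mem_powerset.mpr (filter_subset _ _)) ⟨∅, empty_mem_powerset _⟩
      (by rw [card_powerset, hB0c, card_erase_of_mem ha1]; omega)
    set A2 := (SA.erase a1).filter (fun a => B0.filter (fun b => h a b < θ) = L) with hA2def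
    have hA2mem : ∀ a ∈ A2, a ∈ SA ∧ a ≠ a1 ∧ ∀ b ∈ B0, (b ∈ L ↔ h a b < θ) := by
      intro a ha
      rw [hA2def, mem_filter, mem_erase] at ha
      refine ⟨ha.1.2, ha.1.1, ?_⟩
      intro b hb
      rw [← ha.2, mem_filter]
      exact ⟨fun h => h.2, fun h => ⟨hb, h⟩⟩
    have hA2sub : A2 ⊆ SA := fun a ha => (hA2mem a ha).1
    rw [mem_powerset] at hL
    have hLc : L.card < m0 := by
      have hne : A2.Nonempty := by
        rw [← card_pos]
        omega
      obtain ⟨a, ha⟩ := hne
      have h3 := hlow a (hA2sub ha)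
      rw [hA2def, mem_filter] at ha
      rwa [ha.2] at h3
    have hHc : 0 < (B0 \ L).card := by
      rw [card_sdiff_of_subset hL]
      omega
    obtain ⟨x0, hx0⟩ := card_pos.mp hHc
    rw [mem_sdiff] at hx0
    by_cases hcase : M2 ≤ L.card
    · rcases h2 A B h A2 L (fun a ha b hb a' ha' b' hb' hh => hinj a (hA2sub ha) b (hB0 (hL hb)) a'
        (hA2sub ha') b' (hB0 (hL hb')) hh) (by omega) hcase with hrow | hcol
      · left
        obtain ⟨r, J, hJ, hJc, hr, hs⟩ := hrow
        exact ⟨r, J, hJ.trans (hL.trans hB0), hJc, fun i hi => hA2sub (hr i hi), hs⟩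
      · right
        obtain ⟨c, J, hJ, hJc, hc, hs⟩ := hcol
        refine ⟨fun i => if i < l then c i else x0, J, hJ.trans hA2sub, hJc, ?_, ?_⟩
        · intro i _
          dsimp only
          split_ifs with hi
          · exact hB0 (hL (hc i hi))
          · exact hB0 hx0.1
        · intro i j hij hj x hx y hy
          dsimp only
          have hi : i < l := by omega
          rw [if_pos hi]
          split_ifs with hj'
          · exact hs i j hij hj' x hx y hy
          · have e1 : h x (c i) < θ := ((hA2mem x (hJ hx)).2.2 (c i) (hL (hc i hi))).mp (hc i hi)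
            have e2 : ¬ h y x0 < θ := fun hh => hx0.2 (((hA2mem y (hJ hy)).2.2 x0 hx0.1).mpr hh)
            omega
    · set B' := (B0.filter (fun b => h a1 b ≤ θ)) \ L with hB'
      have hB'c : M1 ≤ B'.card := by
        have h4 := le_card_sdiff L (B0.filter (fun b => h a1 b ≤ θ))
        rw [← hB'] at h4
        omega
      have hB'mem : ∀ b ∈ B', b ∈ B0 ∧ h a1 b ≤ θ ∧ b ∉ L := by
        intro b hb
        rw [hB', mem_sdiff, mem_filter] at hb
        exact ⟨hb.1.1, hb.1.2, hb.2⟩
      have hB'sub : B' ⊆ SB := fun b hb => hB0 (hB'mem b hb).1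
      rcases h1 A B h A2 B' (fun a ha b hb a' ha' b' hb' hh => hinj a (hA2sub ha) b (hB'sub hb) a'
        (hA2sub ha') b' (hB'sub hb') hh) (by omega) hB'c with hrow | hcol
      · left
        obtain ⟨r, J, hJ, hJc, hr, hs⟩ := hrow
        refine ⟨fun i => if i = 0 then a1 else r (i - 1), J, hJ.trans hB'sub, hJc, ?_, ?_⟩
        · intro i hi
          dsimp only
          split_ifs with h0
          · exact ha1
          · exact hA2sub (hr (i - 1) (by omega))
        · intro i j hij hj x hx y hy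
          dsimp only
          rw [if_neg (by omega : ¬ j = 0)]
          split_ifs with h0
          · have hrj := hr (j - 1) (by omega)
            have e1 := (hB'mem x (hJ hx)).2.1
            have e2 : ¬ h (r (j - 1)) y < θ := fun hh =>
              (hB'mem y (hJ hy)).2.2 (((hA2mem _ hrj).2.2 y (hB'mem y (hJ hy)).1).mpr hh)
            have e3 : h a1 x ≠ h (r (j - 1)) y := by
              intro hh
              have := hinj a1 ha1 x (hB'sub (hJ hx)) _ (hA2sub hrj) y (hB'sub (hJ hy)) hh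
              exact (hA2mem _ hrj).2.1 this.1.symm
            omega
          · exact hs (i - 1) (j - 1) (by omega) (by omega) x hx y hy
      · right
        obtain ⟨c, J, hJ, hJc, hc, hs⟩ := hcol
        exact ⟨c, J, hJ.trans hA2sub, hJc, fun i hi => hB'sub (hc i hi), hs⟩

/-- Choice of the letters. -/
lemma choose_letters {B : Type} [DecidableEq B] (u v : B → ℕ) (J : Finset B) (hJ : J.card = 3)
    (hu : ∀ x ∈ J, ∀ y ∈ J, u x = u y → x = y) (hv : ∀ x ∈ J, ∀ y ∈ J, v x = v y → x = y) :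
    ∃ Q ∈ J, ∃ P ∈ J, ∃ R ∈ J, Q ≠ P ∧ Q ≠ R ∧ P ≠ R ∧ u Q < u P ∧ v Q < v R := by
  obtain ⟨P, hP, hmax⟩ := exists_max_image J u (by rw [← card_pos]; omega)
  have h2 : (J.erase P).card = 2 := by rw [card_erase_of_mem hP]; omega
  rw [card_eq_two] at h2
  obtain ⟨q, q', hne, heq⟩ := h2
  have hq : q ∈ J ∧ q ≠ P := by
    have : q ∈ J.erase P := by rw [heq]; simp
    rw [mem_erase] at this
    exact ⟨this.2, this.1⟩
  have hq' : q' ∈ J ∧ q' ≠ P := by
    have : q' ∈ J.erase P := by rw [heq]; simp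
    rw [mem_erase] at this
    exact ⟨this.2, this.1⟩
  have huq : u q < u P := lt_of_le_of_ne (hmax q hq.1) (fun h => hq.2 (hu q hq.1 P hP h))
  have huq' : u q' < u P := lt_of_le_of_ne (hmax q' hq'.1) (fun h => hq'.2 (hu q' hq'.1 P hP h))
  rcases lt_trichotomy (v q) (v q') with h | h | h
  · exact ⟨q, hq.1, P, hP, q', hq'.1, hq.2, hne, hq'.2.symm, huq, h⟩
  · exact absurd (hv q hq.1 q' hq'.1 h) hne
  · exact ⟨q', hq'.1, P, hP, q, hq.1, hq'.2, hne.symm, hq.2.symm, huq', h⟩

/-- Some bipartite graph contains the pattern in every edge-ordering. -/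
theorem exists_host : ∃ N K : ℕ, ∀ g : Sym2 (Fin N ⊕ Fin K) → ℕ,
    Set.InjOn g (completeBipartiteGraph (Fin N) (Fin K)).edgeSet →
    Cont (completeBipartiteGraph (Fin N) (Fin K)) g := by
  obtain ⟨M, R, hMR⟩ := sep 3 8 4 4 rfl
  refine ⟨R + 1, M + 1, ?_⟩
  intro g hg
  have hadj : ∀ (a : Fin (R + 1)) (b : Fin (M + 1)),
      (completeBipartiteGraph (Fin (R + 1)) (Fin (M + 1))).Adj (Sum.inl a) (Sum.inr b) := by
    intro a b
    simp
  have hinj : ∀ (a : Fin (R + 1)) (b : Fin (M + 1)) (a' : Fin (R + 1)) (b' : Fin (M + 1)),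
      g s(Sum.inl a, Sum.inr b) = g s(Sum.inl a', Sum.inr b') → a = a' ∧ b = b' := by
    intro a b a' b' h
    have := hg (hadj a b) (hadj a' b') h
    simpa using this
  rw [cont_iff]
  rcases hMR (Fin (R + 1)) (Fin (M + 1)) (fun a b => g s(Sum.inl a, Sum.inr b)) univ univ
    (fun a _ b _ a' _ b' _ h => hinj a b a' b' h) (by simp) (by simp) with hrow | hcol
  · obtain ⟨r, J, -, hJc, -, hs⟩ := hrow
    obtain ⟨Q, hQ, P, hP, T, hT, hQP, hQT, hPT, hu, hv⟩ := choose_letters
      (fun b => g s(Sum.inl (r 0), Sum.inr b)) (fun b => g s(Sum.inl (r 3), Sum.inr b)) J hJc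
      (fun x _ y _ h => (hinj _ _ _ _ h).2) (fun x _ y _ h => (hinj _ _ _ _ h).2)
    have hne : ∀ i j, i < j → j < 4 → r i ≠ r j := by
      intro i j hij hj heq
      have := hs i j hij hj Q hQ Q hQ
      rw [heq] at this
      omega
    have n01 := hne 0 1 (by norm_num) (by norm_num)
    have n02 := hne 0 2 (by norm_num) (by norm_num)
    have n03 := hne 0 3 (by norm_num) (by norm_num)
    have n12 := hne 1 2 (by norm_num) (by norm_num)
    have n13 := hne 1 3 (by norm_num) (by norm_num)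
    have n23 := hne 2 3 (by norm_num) (by norm_num)
    refine ⟨Sum.inl (r 1), Sum.inr T, Sum.inl (r 3), Sum.inr Q, Sum.inl (r 0), Sum.inr P, Sum.inl (r 2),
      ?_, hadj _ _, (hadj _ _).symm, hadj _ _, (hadj _ _).symm, hadj _ _, (hadj _ _).symm, ?_, ?_, ?_, ?_, ?_⟩
    · simp [n13, n01.symm, n12, hQT.symm, hPT.symm, n03.symm, n23.symm, hQP, n02]
    · rw [Sym2.eq_swap]
      exact hu
    · exact hs 0 1 (by norm_num) (by norm_num) P hP T hT
    · rw [Sym2.eq_swap (a := Sum.inr P)]
      exact hs 1 2 (by norm_num) (by norm_num) T hT P hP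
    · rw [Sym2.eq_swap (a := Sum.inr P)]
      exact hs 2 3 (by norm_num) (by norm_num) P hP Q hQ
    · rw [Sym2.eq_swap (a := Sum.inr T)]
      exact hv
  · obtain ⟨r, J, -, hJc, -, hs⟩ := hcol
    obtain ⟨Q, hQ, P, hP, T, hT, hQP, hQT, hPT, hu, hv⟩ := choose_letters
      (fun b => g s(Sum.inl b, Sum.inr (r 0))) (fun b => g s(Sum.inl b, Sum.inr (r 3))) J hJc
      (fun x _ y _ h => (hinj _ _ _ _ h).1) (fun x _ y _ h => (hinj _ _ _ _ h).1)
    have hne : ∀ i j, i < j → j < 4 → r i ≠ r j := by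
      intro i j hij hj heq
      have := hs i j hij hj Q hQ Q hQ
      rw [heq] at this
      omega
    have n01 := hne 0 1 (by norm_num) (by norm_num)
    have n02 := hne 0 2 (by norm_num) (by norm_num)
    have n03 := hne 0 3 (by norm_num) (by norm_num)
    have n12 := hne 1 2 (by norm_num) (by norm_num)
    have n13 := hne 1 3 (by norm_num) (by norm_num)
    have n23 := hne 2 3 (by norm_num) (by norm_num)
    refine ⟨Sum.inr (r 1), Sum.inl T, Sum.inr (r 3), Sum.inl Q, Sum.inr (r 0), Sum.inl P, Sum.inr (r 2),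
      ?_, (hadj _ _).symm, hadj _ _, (hadj _ _).symm, hadj _ _, (hadj _ _).symm, hadj _ _, ?_, ?_, ?_, ?_, ?_⟩
    · simp [n13, n01.symm, n12, hQT.symm, hPT.symm, n03.symm, n23.symm, hQP, n02]
    · rw [Sym2.eq_swap (a := Sum.inr (r 0))]
      exact hu
    · rw [Sym2.eq_swap (a := Sum.inr (r 0)), Sym2.eq_swap (a := Sum.inr (r 1))]
      exact hs 0 1 (by norm_num) (by norm_num) P hP T hT
    · rw [Sym2.eq_swap (a := Sum.inr (r 1))]
      exact hs 1 2 (by norm_num) (by norm_num) T hT P hP
    · rw [Sym2.eq_swap (a := Sum.inr (r 3))]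
      exact hs 2 3 (by norm_num) (by norm_num) P hP Q hQ
    · rw [Sym2.eq_swap (a := Sum.inr (r 3))]
      exact hv

end Pool.Agent.W153.EO
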