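import Pool.Agent.W153.EO.Pattern

set_option autoImplicit false

/-!
# Points and lines in a high-dimensional grid

Lines are pairs `(c, i)` with `c ∈ [M]^b`, `i ∈ {0,1}^b`; points are pairs `(s, r)`, and the line `(c, i)` passes at
time `s + 1` through `r = c + (s + 1) i`. The incidences are ordered lexicographically by `c`, `i`, `s`.
-/

namespace Pool.Agent.W153.EO

open Finset

abbrev Ln (b M : ℕ) : Type := (Fin b → Fin M) × (Fin b → Bool)

abbrev Pt (b m M : ℕ) : Type := Fin m × (Fin b → Fin (M + m))

/-- The line passes through the point. -/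
def Inc {b m M : ℕ} (p : Pt b m M) (l : Ln b M) : Prop :=
  ∀ j, (p.2 j : ℕ) = (l.1 j : ℕ) + (if l.2 j then (p.1 : ℕ) + 1 else 0)

/-- The incidence graph. -/
def host (b m M : ℕ) : SimpleGraph (Pt b m M ⊕ Ln b M) where
  Adj x y := match x, y with
    | Sum.inl p, Sum.inr l => Inc p l
    | Sum.inr l, Sum.inl p => Inc p l
    | _, _ => False
  symm := ⟨by
    rintro (p | l) (p' | l') h
    · exact h
    · exact h
    · exact h
    · exact h⟩
  loopless := ⟨by
    rintro (p | l) h
    · exact h
    · exact h⟩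

/-- The lexicographic key of a line. -/
def key {b M : ℕ} (l : Ln b M) : Lex (Lex (Fin b → Fin M) × Lex (Fin b → Bool)) :=
  toLex (toLex l.1, toLex l.2)

lemma key_inj {b M : ℕ} : Function.Injective (key (b := b) (M := M)) := by
  intro l l' h
  have h1 := congrArg ofLex h
  simp only [key, ofLex_toLex, Prod.mk.injEq] at h1
  have h2 := congrArg ofLex h1.1
  have h3 := congrArg ofLex h1.2
  simp only [ofLex_toLex] at h2 h3
  exact Prod.ext h2 h3

open Classical in
/-- The rank of a line. -/
noncomputable def rk {b M : ℕ} (l : Ln b M) : ℕ := (univ.filter (fun x : Ln b M => key x < key l)).card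

lemma rk_mono {b M : ℕ} {l l' : Ln b M} (h : key l ≤ key l') : rk l ≤ rk l' := by
  classical
  unfold rk
  apply card_le_card
  intro x hx
  rw [mem_filter] at hx ⊢
  exact ⟨hx.1, lt_of_lt_of_le hx.2 h⟩

lemma rk_strict {b M : ℕ} {l l' : Ln b M} (h : key l < key l') : rk l < rk l' := by
  classical
  unfold rk
  apply card_lt_card
  rw [Finset.ssubset_iff_of_subset]
  · refine ⟨l, ?_, ?_⟩
    · rw [mem_filter]
      exact ⟨mem_univ _, h⟩
    · rw [mem_filter]
      exact fun hh => lt_irrefl _ hh.2
  · intro x hx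
    rw [mem_filter] at hx ⊢
    exact ⟨hx.1, hx.2.trans h⟩

lemma rk_inj {b M : ℕ} {l l' : Ln b M} (h : rk l = rk l') : l = l' := by
  rcases lt_trichotomy (key l) (key l') with h1 | h1 | h1
  · exact absurd h (rk_strict h1).ne
  · exact key_inj h1
  · exact absurd h (rk_strict h1).ne'

lemma key_le_of_rk {b M : ℕ} {l l' : Ln b M} (h : rk l < rk l') : key l < key l' := by
  by_contra hcon
  rw [not_lt] at hcon
  have := rk_mono hcon
  omega

lemma fst_le_of_rk {b M : ℕ} {l l' : Ln b M} (h : rk l < rk l') : toLex l.1 ≤ toLex l'.1 := by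
  have h1 := key_le_of_rk h
  unfold key at h1
  rw [Prod.Lex.lt_iff] at h1
  rcases h1 with h1 | h1
  · exact h1.le
  · exact h1.1.le

/-- If two vectors agree before the coordinate `k`, the lexicographic order gives an inequality at `k`. -/
lemma coord_le {b M : ℕ} (u v : Fin b → Fin M) (h : toLex u ≤ toLex v) (k : Fin b)
    (hk : ∀ j < k, u j = v j) : u k ≤ v k := by
  by_contra hcon
  rw [not_le] at hcon
  have : toLex v < toLex u := by
    exact ⟨k, fun j hj => (hk j hj).symm, hcon⟩
  exact absurd h (not_le.mpr this)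

/-- The order of the incidences. -/
noncomputable def ord (b m M : ℕ) : Sym2 (Pt b m M ⊕ Ln b M) → ℕ :=
  Sym2.lift ⟨fun x y => match x, y with
    | Sum.inl p, Sum.inr l => rk l * m + p.1
    | Sum.inr l, Sum.inl p => rk l * m + p.1
    | _, _ => 0, by
    rintro (p | l) (p' | l')
    · rfl
    · rfl
    · rfl
    · rfl⟩

lemma ord_pl {b m M : ℕ} (p : Pt b m M) (l : Ln b M) : ord b m M s(Sum.inl p, Sum.inr l) = rk l * m + p.1 :=
  rfl

lemma ord_lp {b m M : ℕ} (p : Pt b m M) (l : Ln b M) : ord b m M s(Sum.inr l, Sum.inl p) = rk l * m + p.1 :=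
  rfl

lemma combine_lt {m x y s s' : ℕ} (_hs : s < m) (hs' : s' < m) (h : x * m + s < y * m + s') :
    x < y ∨ (x = y ∧ s < s') := by
  rcases lt_trichotomy x y with h1 | h1 | h1
  · left; exact h1
  · right
    subst h1
    exact ⟨rfl, by omega⟩
  · exfalso
    have : (y + 1) * m ≤ x * m := Nat.mul_le_mul_right m h1
    rw [Nat.add_mul] at this
    omega

lemma point_eq {b m M : ℕ} {p p' : Pt b m M} {l : Ln b M} (h : Inc p l) (h' : Inc p' l)
    (hs : (p.1 : ℕ) = p'.1) : p = p' := by
  apply Prod.ext
  · exact Fin.ext hs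
  · funext j
    apply Fin.ext
    rw [h j, h' j, hs]

lemma ord_injOn (b m M : ℕ) : Set.InjOn (ord b m M) (host b m M).edgeSet := by
  have hrep : ∀ e ∈ (host b m M).edgeSet, ∃ p l, Inc p l ∧ e = s(Sum.inl p, Sum.inr l) := by
    intro e he
    induction e using Sym2.ind with
    | _ x y =>
      rw [SimpleGraph.mem_edgeSet] at he
      rcases x with p | l <;> rcases y with p' | l'
      · exact absurd he (by simp [host])
      · exact ⟨p, l', he, rfl⟩
      · exact ⟨p', l, he, Sym2.eq_swap⟩
      · exact absurd he (by simp [host])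
  intro e he e' he' h
  obtain ⟨p, l, hpl, rfl⟩ := hrep e he
  obtain ⟨p', l', hpl', rfl⟩ := hrep e' he'
  rw [ord_pl, ord_pl] at h
  have hm : (p.1 : ℕ) < m := p.1.2
  have hm' : (p'.1 : ℕ) < m := p'.1.2
  have hrk : rk l = rk l' := by
    rcases lt_trichotomy (rk l) (rk l') with h1 | h1 | h1
    · have : (rk l + 1) * m ≤ rk l' * m := Nat.mul_le_mul_right m h1
      rw [Nat.add_mul] at this
      omega
    · exact h1
    · have : (rk l' + 1) * m ≤ rk l * m := Nat.mul_le_mul_right m h1
      rw [Nat.add_mul] at this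
      omega
  have hl := rk_inj hrk
  subst hl
  have hs : (p.1 : ℕ) = p'.1 := by omega
  rw [point_eq hpl hpl' hs]

/-- The contradiction at the first coordinate where the four directions differ. -/
lemma coord_contra (ca cb cc cd rP rQ rR sP sQ sR : ℕ) (ia ib ic id : Bool)
    (hPa : rP = ca + (if ia then sP + 1 else 0)) (hPb : rP = cb + (if ib then sP + 1 else 0))
    (hQb : rQ = cb + (if ib then sQ + 1 else 0)) (hQc : rQ = cc + (if ic then sQ + 1 else 0))
    (hRc : rR = cc + (if ic then sR + 1 else 0)) (hRd : rR = cd + (if id then sR + 1 else 0))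
    (h1 : cb ≤ cd) (h2 : cd ≤ ca) (h3 : ca ≤ cc) (hs : sQ < sP) (hs' : sQ ≠ sR)
    (hne : ¬ (ia = ib ∧ ib = ic ∧ ic = id)) : False := by
  cases ia <;> cases ib <;> cases ic <;> cases id <;> simp at * <;> omega

/-- The host avoids the pattern. -/
theorem host_avoids (b m M : ℕ) : ¬ Cont (host b m M) (ord b m M) := by
  rw [cont_iff]
  rintro ⟨d, R, c, Q, bb, P, a, hnd, h01, h12, h23, h34, h45, h56, o1, o2, o3, o4, o5⟩
  simp only [List.nodup_cons, List.mem_cons, List.not_mem_nil, or_false, not_or] at hnd
  obtain ⟨⟨n1, n2, n3, n4, n5, n6⟩, ⟨n7, n8, n9, n10, n11⟩, ⟨n12, n13, n14, n15⟩, ⟨n16, n17, n18⟩,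
    ⟨n19, n20⟩, n21, -⟩ := hnd
  rcases d with d | d
  · -- rows are points
    rcases R with R | R
    · exact absurd h01 (by simp [host])
    rcases c with c | c
    swap
    · exact absurd h12 (by simp [host])
    rcases Q with Q | Q
    · exact absurd h23 (by simp [host])
    rcases bb with bb | bb
    swap
    · exact absurd h34 (by simp [host])
    rcases P with P | P
    · exact absurd h45 (by simp [host])
    rcases a with a | a
    swap
    · exact absurd h56 (by simp [host])
    simp only [ord_pl, ord_lp] at o1 o2 o3 o4 o5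
    have e1 := combine_lt bb.1.2 bb.1.2 o1
    have e2 := combine_lt bb.1.2 d.1.2 o2
    have e3 := combine_lt d.1.2 a.1.2 o3
    have e4 := combine_lt a.1.2 c.1.2 o4
    have : rk Q = rk P := by omega
    exact n17 (by rw [rk_inj this])
  · rcases R with R | R
    swap
    · exact absurd h01 (by simp [host])
    rcases c with c | c
    · exact absurd h12 (by simp [host])
    rcases Q with Q | Q
    swap
    · exact absurd h23 (by simp [host])
    rcases bb with bb | bb
    · exact absurd h34 (by simp [host])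
    rcases P with P | P
    swap
    · exact absurd h45 (by simp [host])
    rcases a with a | a
    · exact absurd h56 (by simp [host])
    simp only [ord_pl, ord_lp] at o1 o2 o3 o4 o5
    have iRd : Inc R d := h01
    have iRc : Inc R c := h12
    have iQc : Inc Q c := h23
    have iQb : Inc Q bb := h34
    have iPb : Inc P bb := h45
    have iPa : Inc P a := h56
    have e1 := combine_lt Q.1.2 P.1.2 o1
    have e2 := combine_lt P.1.2 R.1.2 o2
    have e3 := combine_lt R.1.2 P.1.2 o3
    have e4 := combine_lt P.1.2 Q.1.2 o4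
    have e5 := combine_lt Q.1.2 R.1.2 o5
    have r1 : rk bb < rk d := by
      rcases e2 with h | ⟨h, _⟩
      · exact h
      · exact absurd (congrArg Sum.inr (rk_inj h).symm) n4
    have r2 : rk d < rk a := by
      rcases e3 with h | ⟨h, _⟩
      · exact h
      · exact absurd (congrArg Sum.inr (rk_inj h)) n6
    have r3 : rk a < rk c := by
      rcases e4 with h | ⟨h, _⟩
      · exact h
      · exact absurd (congrArg Sum.inr (rk_inj h).symm) n15
    have hs : (Q.1 : ℕ) < P.1 := by
      rcases e1 with h | ⟨_, h⟩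
      · omega
      · exact h
    have hs' : (Q.1 : ℕ) ≠ R.1 := by
      intro h
      exact n8 (congrArg Sum.inl (point_eq iQc iRc h).symm)
    have l1 := fst_le_of_rk r1
    have l2 := fst_le_of_rk r2
    have l3 := fst_le_of_rk r3
    -- the first coordinate where the directions differ
    have hex : ∃ j : Fin b, ¬ (a.2 j = bb.2 j ∧ bb.2 j = c.2 j ∧ c.2 j = d.2 j) := by
      by_contra hcon
      push Not at hcon
      have hab : a = bb := by
        apply Prod.ext
        · funext j
          apply Fin.ext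
          have h1 := iPa j
          have h2 := iPb j
          rw [(hcon j).1] at h1
          omega
        · funext j
          exact (hcon j).1
      rw [hab] at r2
      omega
    classical
    let S : Finset (Fin b) := univ.filter (fun j => ¬ (a.2 j = bb.2 j ∧ bb.2 j = c.2 j ∧ c.2 j = d.2 j))
    have hS : S.Nonempty := by
      obtain ⟨j, hj⟩ := hex
      exact ⟨j, by simp only [S, mem_filter]; exact ⟨mem_univ _, hj⟩⟩
    set k := S.min' hS with hk
    have hkS : k ∈ S := S.min'_mem hS
    have hkne : ¬ (a.2 k = bb.2 k ∧ bb.2 k = c.2 k ∧ c.2 k = d.2 k) := by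
      simp only [S, mem_filter] at hkS
      exact hkS.2
    have hbefore : ∀ j < k, a.2 j = bb.2 j ∧ bb.2 j = c.2 j ∧ c.2 j = d.2 j := by
      intro j hj
      by_contra hcon
      have hjS : j ∈ S := by
        simp only [S, mem_filter]
        exact ⟨mem_univ _, hcon⟩
      have := S.min'_le j hjS
      rw [← hk] at this
      exact absurd hj (not_lt.mpr this)
    have eab : ∀ j < k, (a.1 j : ℕ) = bb.1 j := by
      intro j hj
      have h1 := iPa j
      have h2 := iPb j
      rw [(hbefore j hj).1] at h1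
      omega
    have ebc : ∀ j < k, (bb.1 j : ℕ) = c.1 j := by
      intro j hj
      have h1 := iQb j
      have h2 := iQc j
      rw [(hbefore j hj).2.1] at h1
      omega
    have ecd : ∀ j < k, (c.1 j : ℕ) = d.1 j := by
      intro j hj
      have h1 := iRc j
      have h2 := iRd j
      rw [(hbefore j hj).2.2] at h1
      omega
    have m1 := coord_le bb.1 d.1 l1 k (fun j hj => Fin.ext ((ebc j hj).trans (ecd j hj)))
    have m2 := coord_le d.1 a.1 l2 k (fun j hj => Fin.ext
      (((eab j hj).trans ((ebc j hj).trans (ecd j hj))).symm))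
    have m3 := coord_le a.1 c.1 l3 k (fun j hj => Fin.ext ((eab j hj).trans (ebc j hj)))
    exact coord_contra (a.1 k) (bb.1 k) (c.1 k) (d.1 k) (P.2 k) (Q.2 k) (R.2 k) P.1 Q.1 R.1
      (a.2 k) (bb.2 k) (c.2 k) (d.2 k) (iPa k) (iPb k) (iQb k) (iQc k) (iRc k) (iRd k) m1 m2 m3 hs hs' hkne

/-- The number of incidences. -/
lemma host_edges (b m M : ℕ) : (2 * M) ^ b * m ≤ (host b m M).edgeSet.ncard := by
  classical
  let F : Ln b M × Fin m → Sym2 (Pt b m M ⊕ Ln b M) := fun x =>
    s(Sum.inl (x.2, fun j => ⟨(x.1.1 j : ℕ) + (if x.1.2 j then (x.2 : ℕ) + 1 else 0), by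
      have h1 := (x.1.1 j).2
      have h2 := x.2.2
      split_ifs <;> omega⟩), Sum.inr x.1)
  have hF : Function.Injective F := by
    rintro ⟨l, s⟩ ⟨l', s'⟩ h
    simp only [F, Sym2.eq_iff, Sum.inl.injEq, Sum.inr.injEq, reduceCtorEq, and_self, or_false,
      Prod.mk.injEq] at h
    exact Prod.ext h.2 h.1.1
  have hsub : Set.range F ⊆ (host b m M).edgeSet := by
    rintro _ ⟨⟨l, s⟩, rfl⟩
    simp only [F]
    rw [SimpleGraph.mem_edgeSet]
    intro j
    rfl
  have hcard : (Set.range F).ncard = (2 * M) ^ b * m := by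
    rw [← Set.image_univ, Set.ncard_image_of_injective _ hF, Set.ncard_univ, Nat.card_eq_fintype_card,
      Fintype.card_prod, Fintype.card_prod, Fintype.card_fun, Fintype.card_fun, Fintype.card_fin,
      Fintype.card_fin, Fintype.card_bool, Fintype.card_fin, mul_pow, mul_comm (2 ^ b) (M ^ b)]
  rw [← hcard]
  exact Set.ncard_le_ncard hsub (Set.toFinite _)

lemma host_card (b m M : ℕ) : Fintype.card (Pt b m M ⊕ Ln b M) = m * (M + m) ^ b + (2 * M) ^ b := by
  rw [Fintype.card_sum, Fintype.card_prod, Fintype.card_prod, Fintype.card_fun, Fintype.card_fun,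
    Fintype.card_fun, Fintype.card_fin, Fintype.card_fin, Fintype.card_bool, Fintype.card_fin,
    Fintype.card_fin, mul_pow, mul_comm (2 ^ b) (M ^ b)]

end Pool.Agent.W153.EO
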