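import Mathlib

set_option autoImplicit false

/-!
# An edge-ordered path on seven vertices

The path `0 1 2 3 4 5 6`, whose edges `01, 12, 23, 34, 45, 56` have ranks `3, 6, 5, 1, 2, 4`. With rows
`b = 4, d = 0, a = 6, c = 2` and letters `Q = 3, P = 5, R = 1` it is the sequence of words
`b : Q P`, `d : R`, `a : P`, `c : Q R`.
-/

namespace Pool.Agent.W153.EO

/-- The path with seven vertices. -/
def pat : SimpleGraph (Fin 7) := SimpleGraph.pathGraph 7

/-- The rank of the edge `{i, i + 1}`. -/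
def labv (i : ℕ) : ℕ :=
  if i = 0 then 3 else if i = 1 then 6 else if i = 2 then 5 else if i = 3 then 1 else if i = 4 then 2 else 4

/-- The ranks of the edges. -/
def lab : Sym2 (Fin 7) → ℕ :=
  Sym2.lift ⟨fun x y => labv (min x.val y.val), fun _ _ => congrArg labv (min_comm _ _)⟩

instance : DecidableRel pat.Adj := fun x y =>
  decidable_of_iff (x.val + 1 = y.val ∨ y.val + 1 = x.val) (by
    unfold pat
    rw [SimpleGraph.pathGraph_adj])

lemma mem_pat (e : Sym2 (Fin 7)) : e ∈ pat.edgeSet ↔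
    e = s(0, 1) ∨ e = s(1, 2) ∨ e = s(2, 3) ∨ e = s(3, 4) ∨ e = s(4, 5) ∨ e = s(5, 6) := by
  induction e using Sym2.ind with
  | _ x y =>
    rw [SimpleGraph.mem_edgeSet]
    revert x y
    decide

lemma pat_acyclic : pat.IsAcyclic := by
  have hconn : pat.Connected := SimpleGraph.pathGraph_connected 6
  have hcard : pat.edgeSet.ncard = 6 := by
    rw [← SimpleGraph.coe_edgeFinset, Set.ncard_coe_finset]
    decide
  have htree : pat.IsTree := by
    rw [SimpleGraph.isTree_iff_connected_and_card]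
    refine ⟨hconn, ?_⟩
    rw [Nat.card_coe_set_eq, hcard]
    simp
  exact htree.isAcyclic

lemma lab_injOn : Set.InjOn lab pat.edgeSet := by
  intro e he e' he' h
  rw [mem_pat] at he he'
  rcases he with rfl | rfl | rfl | rfl | rfl | rfl <;> rcases he' with rfl | rfl | rfl | rfl | rfl | rfl <;>
    first | rfl | (exfalso; revert h; decide)

lemma pat_nonempty : pat.edgeSet.Nonempty := ⟨s(0, 1), by rw [mem_pat]; left; rfl⟩

/-- The edge-ordered graph `(G, g)` contains the pattern. -/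
def Cont {V : Type} (G : SimpleGraph V) (g : Sym2 V → ℕ) : Prop :=
  ∃ φ : Fin 7 → V, Function.Injective φ ∧ (∀ u v : Fin 7, pat.Adj u v → G.Adj (φ u) (φ v)) ∧
    ∀ e₁ ∈ pat.edgeSet, ∀ e₂ ∈ pat.edgeSet, lab e₁ < lab e₂ → g (Sym2.map φ e₁) < g (Sym2.map φ e₂)

/-- Explicit form of containment. -/
lemma cont_iff {V : Type} (G : SimpleGraph V) (g : Sym2 V → ℕ) :
    Cont G g ↔ ∃ d R c Q b P a : V, ([d, R, c, Q, b, P, a].Nodup) ∧
      G.Adj d R ∧ G.Adj R c ∧ G.Adj c Q ∧ G.Adj Q b ∧ G.Adj b P ∧ G.Adj P a ∧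
      g s(Q, b) < g s(b, P) ∧ g s(b, P) < g s(d, R) ∧ g s(d, R) < g s(P, a) ∧ g s(P, a) < g s(c, Q) ∧
      g s(c, Q) < g s(R, c) := by
  constructor
  · rintro ⟨φ, hinj, hadj, hord⟩
    have h01 : pat.Adj 0 1 := by decide
    have h12 : pat.Adj 1 2 := by decide
    have h23 : pat.Adj 2 3 := by decide
    have h34 : pat.Adj 3 4 := by decide
    have h45 : pat.Adj 4 5 := by decide
    have h56 : pat.Adj 5 6 := by decide
    refine ⟨φ 0, φ 1, φ 2, φ 3, φ 4, φ 5, φ 6, ?_, hadj _ _ h01, hadj _ _ h12, hadj _ _ h23, hadj _ _ h34,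
      hadj _ _ h45, hadj _ _ h56, ?_, ?_, ?_, ?_, ?_⟩
    · have : [φ 0, φ 1, φ 2, φ 3, φ 4, φ 5, φ 6] = List.map φ [0, 1, 2, 3, 4, 5, 6] := rfl
      rw [this, List.nodup_map_iff hinj]
      decide
    · exact hord s(3, 4) h34 s(4, 5) h45 (by decide)
    · exact hord s(4, 5) h45 s(0, 1) h01 (by decide)
    · exact hord s(0, 1) h01 s(5, 6) h56 (by decide)
    · exact hord s(5, 6) h56 s(2, 3) h23 (by decide)
    · exact hord s(2, 3) h23 s(1, 2) h12 (by decide)
  · rintro ⟨d, R, c, Q, b, P, a, hnd, h01, h12, h23, h34, h45, h56, o1, o2, o3, o4, o5⟩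
    refine ⟨![d, R, c, Q, b, P, a], ?_, ?_, ?_⟩
    · intro i j hij
      simp only [List.nodup_cons, List.mem_cons, List.not_mem_nil, or_false, not_or] at hnd
      obtain ⟨⟨n1, n2, n3, n4, n5, n6⟩, ⟨n7, n8, n9, n10, n11⟩, ⟨n12, n13, n14, n15⟩, ⟨n16, n17, n18⟩,
        ⟨n19, n20⟩, n21, -⟩ := hnd
      fin_cases i <;> fin_cases j <;> first | rfl | (exfalso; revert hij; simp; first | assumption | (apply Ne.symm; assumption))
    · intro u v huv
      have : s(u, v) ∈ pat.edgeSet := huv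
      rw [mem_pat] at this
      simp only [Sym2.eq_iff] at this
      rcases this with (⟨rfl, rfl⟩ | ⟨rfl, rfl⟩) | (⟨rfl, rfl⟩ | ⟨rfl, rfl⟩) | (⟨rfl, rfl⟩ | ⟨rfl, rfl⟩) |
        (⟨rfl, rfl⟩ | ⟨rfl, rfl⟩) | (⟨rfl, rfl⟩ | ⟨rfl, rfl⟩) | (⟨rfl, rfl⟩ | ⟨rfl, rfl⟩)
      · exact h01
      · exact h01.symm
      · exact h12
      · exact h12.symm
      · exact h23
      · exact h23.symm
      · exact h34
      · exact h34.symm
      · exact h45
      · exact h45.symm
      · exact h56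
      · exact h56.symm
    · have e01 : Sym2.map ![d, R, c, Q, b, P, a] s(0, 1) = s(d, R) := rfl
      have e12 : Sym2.map ![d, R, c, Q, b, P, a] s(1, 2) = s(R, c) := rfl
      have e23 : Sym2.map ![d, R, c, Q, b, P, a] s(2, 3) = s(c, Q) := rfl
      have e34 : Sym2.map ![d, R, c, Q, b, P, a] s(3, 4) = s(Q, b) := rfl
      have e45 : Sym2.map ![d, R, c, Q, b, P, a] s(4, 5) = s(b, P) := rfl
      have e56 : Sym2.map ![d, R, c, Q, b, P, a] s(5, 6) = s(P, a) := rfl
      have l01 : lab s(0, 1) = 3 := by decide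
      have l12 : lab s(1, 2) = 6 := by decide
      have l23 : lab s(2, 3) = 5 := by decide
      have l34 : lab s(3, 4) = 1 := by decide
      have l45 : lab s(4, 5) = 2 := by decide
      have l56 : lab s(5, 6) = 4 := by decide
      intro e₁ he₁ e₂ he₂ hlt
      rw [mem_pat] at he₁ he₂
      rcases he₁ with rfl | rfl | rfl | rfl | rfl | rfl <;>
        rcases he₂ with rfl | rfl | rfl | rfl | rfl | rfl <;>
        simp only [l01, l12, l23, l34, l45, l56] at hlt <;>
        simp only [e01, e12, e23, e34, e45, e56] <;> omega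

end Pool.Agent.W153.EO
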